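import Pool.Agent.Q262.PC.Ratio

/-!
# MP_130e73: the real domination roots of paths and of cycles are not dense in `[-2,0]`
-/

namespace Pool.Agent.Results.MP_130e73_co.NotDense

open DomPC

/-- `R_P`: the real roots of the domination polynomials of the paths `P_n`, `n ≥ 4` -/
def RP : Set ℝ := {r | ∃ n, 4 ≤ n ∧ domPoly (SimpleGraph.pathGraph n) r = 0}

/-- `R_C`: the real roots of the domination polynomials of the cycles `C_n`, `n ≥ 4` -/
def RC : Set ℝ := {r | ∃ n, 4 ≤ n ∧ domPoly (SimpleGraph.cycleGraph n) r = 0}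

/-- There is a nondegenerate interval `[a,b] ⊆ [-2,0]` containing no real root of `D(P_n,x)` and
no real root of `D(C_n,x)` for any `n ≥ 4`; in particular neither `R_P` nor `R_C` is dense in
`[-2,0]`. -/
theorem result :
    (∃ a b : ℝ, -2 ≤ a ∧ a < b ∧ b ≤ 0 ∧ ∀ n, 4 ≤ n → ∀ x ∈ Set.Icc a b,
      domPoly (SimpleGraph.pathGraph n) x ≠ 0 ∧ domPoly (SimpleGraph.cycleGraph n) x ≠ 0) ∧
    ¬ (Set.Icc (-2 : ℝ) 0 ⊆ closure RP) ∧ ¬ (Set.Icc (-2 : ℝ) 0 ⊆ closure RC) := by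
  obtain ⟨a, b, ha, hab, hb, hmain⟩ := main_interval
  have hroot : ∀ n, 4 ≤ n → ∀ x ∈ Set.Icc a b,
      domPoly (SimpleGraph.pathGraph n) x ≠ 0 ∧ domPoly (SimpleGraph.cycleGraph n) x ≠ 0 := by
    intro n hn x hx
    obtain ⟨m, rfl⟩ : ∃ m, n = m + 3 := ⟨n - 3, by omega⟩
    rw [domPoly_path, domPoly_cycle]
    exact hmain x hx m (by omega)
  have hmid : (a + b) / 2 ∈ Set.Icc (-2 : ℝ) 0 := ⟨by linarith, by linarith⟩
  have hmid' : (a + b) / 2 ∈ Set.Ioo a b := ⟨by linarith, by linarith⟩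
  refine ⟨⟨a, b, ha.le, hab, hb.le, hroot⟩, ?_, ?_⟩
  · intro hcl
    have h1 := hcl hmid
    rw [mem_closure_iff] at h1
    obtain ⟨r, hr1, n, hn, hr2⟩ := h1 (Set.Ioo a b) isOpen_Ioo hmid'
    exact (hroot n hn r ⟨hr1.1.le, hr1.2.le⟩).1 hr2
  · intro hcl
    have h1 := hcl hmid
    rw [mem_closure_iff] at h1
    obtain ⟨r, hr1, n, hn, hr2⟩ := h1 (Set.Ioo a b) isOpen_Ioo hmid'
    exact (hroot n hn r ⟨hr1.1.le, hr1.2.le⟩).2 hr2

end Pool.Agent.Results.MP_130e73_co.NotDense
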